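import Pool.Agent.Helper92.BO.GoalsB

/-!
# Stable set polytopes: the hypotheses of one step of the induction (CHS)
-/

namespace Pool.Agent.Helper75.BO

open Pool.Agent.Helper92.BO MeasureTheory Set

theorem good_pos1 {L : List ℕ} {b : ℕ → ℝ} (h : Good L b) : Pos1 L b :=
  fun u hu => ⟨(h u hu).1, (h u hu).2.1⟩

theorem good_in01 {L : List ℕ} {b : ℕ → ℝ} (h : Good L b) : In01 L b :=
  fun u hu => ⟨(h u hu).1.le, (h u hu).2.1⟩

theorem pos1_cut (G : SimpleGraph ℕ) (v : ℕ) {x : ℝ} (hx1 : x < 1)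
    {L : List ℕ} {b : ℕ → ℝ} (h : Pos1 L b) : Pos1 L (cut G v (1 - x) b) := by
  intro u hu
  obtain ⟨h1, h2⟩ := h u hu
  unfold cut
  split_ifs
  · exact ⟨lt_min h1 (by linarith), (min_le_left _ _).trans h2⟩
  · exact ⟨h1, h2⟩

theorem good_cut (G : SimpleGraph ℕ) (v : ℕ) {x : ℝ} (hx1 : x < 1) (hx : x ≠ 1 / 2)
    {L : List ℕ} {b : ℕ → ℝ} (h : Good L b) : Good L (cut G v (1 - x) b) := by
  intro u hu
  obtain ⟨h1, h2, h3⟩ := h u hu
  unfold cut
  split_ifs
  · refine ⟨lt_min h1 (by linarith), (min_le_left _ _).trans h2, ?_⟩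
    rcases min_choice (b u) (1 - x) with h4 | h4
    · rw [h4]; exact h3
    · rw [h4]
      intro h5
      exact hx (by linarith)
  · exact ⟨h1, h2, h3⟩

/-- CHS. -/
theorem chs (hadm : AdmStmt) (hcnt : CntStmt) (hpos : PosStmt) (hkbd : KbdStmt)
    (hjbd : JbdStmt) : ChsStmt := by
  intro G s l κ Δ z hS hD hl0 hl1 hκ0 hκ1 hz L v b hnd hv hb hHC
  have hb1 := good_in01 hb
  have hWpos : ∀ x, x < 1 → 0 < ZR G l L (cut G v (1 - x) b) := by
    intro x hx
    exact (hpos G l L _ hl0 hl1).2 (pos1_cut G v hx (good_pos1 hb))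
  refine ⟨hl0, hl1, hκ0, hκ1, hz, hadm G Δ l L v b hD hl0 hl1 hnd hv (good_pos1 hb),
    (hcnt G z l L v b hb1).1, ?_, ?_, ?_, ?_⟩
  · intro x hx0 hx1 hx
    exact hHC.1 _ (good_cut G v hx1 hx hb)
  · have h1 := (((hkbd G s l hS hl0 hl1 L).2.2 v b hb1).const_mul (s v))
    refine h1.congr_ae ?_
    rw [Filter.EventuallyEq, ae_restrict_iff' measurableSet_uIoc]
    have h2 : ∀ᵐ x : ℝ, x ≠ 1 := by
      have : (volume : Measure ℝ) {(1 : ℝ)} = 0 := by simp
      rw [ae_iff]
      simpa using this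
    filter_upwards [h2] with x hx1 hx
    rw [uIoc_of_le zero_le_one] at hx
    have hx' : x < 1 := lt_of_le_of_ne hx.2 hx1
    have h3 := (hWpos x hx').ne'
    simp only [JR]
    field_simp
  · intro x' x hx'0 hxx hx1 hx' hx
    exact hjbd G s l Δ hS hD hl0 hl1 L v b hnd hv hb x' x hx'0 hxx hx1 hx' hx
  · intro x' x hx'0 hxx hx1 hx' hx
    have hg := good_cut G v hx1 hx hb
    have hg' := good_cut G v (hxx.trans hx1) hx' hb
    have hcc : ∀ u, G.Adj v u → cut G v (1 - x) b u ≤ cut G v (1 - x') b u := by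
      intro u hu
      unfold cut
      rw [if_pos hu, if_pos hu]
      exact min_le_min le_rfl (by linarith)
    have hnn : ∀ u, ¬ G.Adj v u → cut G v (1 - x) b u = cut G v (1 - x') b u := by
      intro u hu
      unfold cut
      rw [if_neg hu, if_neg hu]
    rcases hS.pm v with hs | hs
    · have hL : Leq s L (cut G v (1 - x') b) (cut G v (1 - x) b) := by
        intro u _
        by_cases ha : G.Adj v u
        · have h1 := hS.alt v u ha
          have h2 := hcc u ha
          have h3 : s u = -1 := by linarith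
          rw [h3]
          linarith
        · rw [hnn u ha]
      obtain ⟨D, hD1, hD2⟩ := hHC.2 _ _ hg' hg hL
      refine ⟨D, hD1, hD2.trans (le_of_eq ?_)⟩
      rw [hs]
      ring
    · have hL : Leq s L (cut G v (1 - x) b) (cut G v (1 - x') b) := by
        intro u _
        by_cases ha : G.Adj v u
        · have h1 := hS.alt v u ha
          have h2 := hcc u ha
          have h3 : s u = 1 := by linarith
          rw [h3]
          linarith
        · rw [hnn u ha]
      obtain ⟨D, hD1, hD2⟩ := hHC.2 _ _ hg hg' hL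
      refine ⟨-D, ?_, ?_⟩
      · show ZC G z L (cut G v (1 - x) b) * (ZR G l L (cut G v (1 - x') b) : ℂ) =
          Complex.exp (-D) * (ZC G z L (cut G v (1 - x') b) * (ZR G l L (cut G v (1 - x) b) : ℂ))
        rw [hD1, ← mul_assoc, ← Complex.exp_add, neg_add_cancel, Complex.exp_zero, one_mul]
      · rw [norm_neg]
        refine hD2.trans (le_of_eq ?_)
        rw [hs]
        ring

end Pool.Agent.Helper75.BO
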