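import Pool.Agent.Helper92.BO.GoalsD

/-!
# Stable set polytopes: Barvinok's polynomial (FPH)
-/

namespace Pool.Agent.Helper75.BO

open Pool.Agent.Helper92.BO Finset

/-- Truncated `- log (1 - u)`. -/
noncomputable def hN (N : ℕ) (u : ℂ) : ℂ := ∑ i ∈ range (N + 1), u ^ i / i

theorem hN_taylor (N : ℕ) (u : ℂ) : Complex.logTaylor (N + 1) (-u) = - hN N u := by
  unfold Complex.logTaylor hN
  rw [← Finset.sum_neg_distrib]
  apply Finset.sum_congr rfl
  intro j _
  have h1 : (-1 : ℂ) ^ (j + 1) * (-u) ^ j = - u ^ j := by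
    rw [neg_pow u j, pow_succ]
    have : ((-1 : ℂ) ^ j) * (-1) ^ j = 1 := by
      rw [← mul_pow]
      simp
    calc (-1 : ℂ) ^ j * -1 * ((-1) ^ j * u ^ j) = - (((-1 : ℂ) ^ j) * (-1) ^ j * u ^ j) := by ring
      _ = _ := by rw [this, one_mul]
  rw [h1, neg_div]

theorem hN_log (M : ℕ) (hM : 2 ≤ M) (u : ℂ) (hu : ‖u‖ ≤ 1 - 1 / (2 * (M : ℝ))) :
    ‖hN (2 * M) u + Complex.log (1 - u)‖ ≤ 1 := by
  have hM' : (0 : ℝ) < M := by
    have : (2 : ℝ) ≤ M := by exact_mod_cast hM
    linarith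
  have h0 : (0 : ℝ) < 1 / (2 * (M : ℝ)) := by positivity
  have hu1 : ‖-u‖ < 1 := by
    rw [norm_neg]
    linarith
  have h1 := Complex.norm_log_sub_logTaylor_le (2 * M) hu1
  rw [hN_taylor] at h1
  have h2 : Complex.log (1 + -u) - -hN (2 * M) u = hN (2 * M) u + Complex.log (1 - u) := by
    rw [← sub_eq_add_neg]
    ring
  rw [h2, norm_neg] at h1
  refine h1.trans ?_
  have h3 : ‖u‖ ^ (2 * M + 1) ≤ 1 := pow_le_one₀ (norm_nonneg _) (by linarith)
  have h4 : (1 - ‖u‖)⁻¹ ≤ 2 * M := by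
    rw [inv_le_comm₀ (by linarith) (by positivity)]
    rw [inv_eq_one_div]
    linarith
  have h5 : (0 : ℝ) ≤ (1 - ‖u‖)⁻¹ := inv_nonneg.2 (by linarith)
  rw [div_le_one (by positivity)]
  calc ‖u‖ ^ (2 * M + 1) * (1 - ‖u‖)⁻¹ ≤ 1 * (2 * M) := mul_le_mul h3 h4 h5 zero_le_one
    _ ≤ ((2 * M : ℕ) : ℝ) + 1 := by push_cast; linarith

/-- the coefficients -/
def ac (M k : ℕ) : ℕ := (M - 1) ^ k * M ^ (2 * M - k) * ((2 * M).factorial / k)

/-- the list of coefficients -/
def fL (M : ℕ) : List ℕ := (List.range (2 * M + 1)).map (ac M)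

theorem fL_length (M : ℕ) : (fL M).length = 2 * M + 1 := by
  simp [fL]

theorem fL_getD (M i : ℕ) (hi : i < 2 * M + 1) : (fL M).getD i 0 = ac M i := by
  unfold fL
  rw [List.getD_eq_getElem _ _ (by simpa using hi)]
  simp

theorem sum_map_range (f : ℕ → ℕ) (n : ℕ) :
    ((List.range n).map f).sum = ∑ i ∈ range n, f i := by
  induction n with
  | zero => simp
  | succ n ih => simp [List.range_succ, Finset.sum_range_succ, ih]

theorem ac_cast (M : ℕ) (hM : 2 ≤ M) (k : ℕ) (hk : k < 2 * M + 1) (w : ℂ) :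
    ((ac M k : ℕ) : ℂ) * w ^ k = ((M : ℂ) ^ (2 * M) * (2 * M).factorial) *
      (((1 - 1 / (M : ℝ) : ℝ) : ℂ) * w) ^ k / k := by
  have hM0 : (M : ℂ) ≠ 0 := by
    have : M ≠ 0 := by omega
    exact_mod_cast this
  rcases Nat.eq_zero_or_pos k with rfl | hk0
  · simp [ac]
  · have hk' : (k : ℂ) ≠ 0 := by exact_mod_cast hk0.ne'
    have h1 : (((2 * M).factorial / k : ℕ) : ℂ) = ((2 * M).factorial : ℂ) / k :=
      Nat.cast_div (Nat.dvd_factorial hk0 (by omega)) hk'
    have h2 : (((M - 1 : ℕ)) : ℂ) = M * ((1 - 1 / (M : ℝ) : ℝ) : ℂ) := by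
      push_cast [Nat.cast_sub (show 1 ≤ M by omega)]
      field_simp
    have h3 : (M : ℂ) ^ (2 * M) = M ^ k * M ^ (2 * M - k) := by
      rw [← pow_add]
      congr 1
      omega
    unfold ac
    rw [Nat.cast_mul, Nat.cast_mul, h1, Nat.cast_pow, Nat.cast_pow, h2, h3, mul_pow, mul_pow]
    ring

theorem evL_fL (M : ℕ) (hM : 2 ≤ M) (w : ℂ) :
    evL (fL M) w = ((M : ℂ) ^ (2 * M) * (2 * M).factorial) *
      hN (2 * M) (((1 - 1 / (M : ℝ) : ℝ) : ℂ) * w) := by
  unfold evL hN
  rw [fL_length, Finset.mul_sum]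
  apply Finset.sum_congr rfl
  intro i hi
  rw [fL_getD M i (Finset.mem_range.1 hi), ac_cast M hM i (Finset.mem_range.1 hi)]
  ring

theorem sum_fL (M : ℕ) : (((fL M).sum : ℕ) : ℂ) = evL (fL M) 1 := by
  unfold evL
  rw [fL_length]
  have h1 : (fL M).sum = ∑ i ∈ range (2 * M + 1), (fL M).getD i 0 := by
    unfold fL
    rw [sum_map_range]
    apply Finset.sum_congr rfl
    intro i hi
    exact (fL_getD M i (Finset.mem_range.1 hi)).symm
  rw [h1, Nat.cast_sum]
  apply Finset.sum_congr rfl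
  intro i _
  rw [one_pow, mul_one]

/-- FPH. -/
theorem fph : FphStmt := by
  intro δ hδ
  obtain ⟨M, hM⟩ := exists_nat_gt (max 2 (Real.exp (8 / δ + 1)))
  have hM2r : (2 : ℝ) < M := (le_max_left _ _).trans_lt hM
  have hM2 : 2 ≤ M := by
    have : (2 : ℕ) < M := by exact_mod_cast hM2r
    omega
  have hMe : Real.exp (8 / δ + 1) < M := (le_max_right _ _).trans_lt hM
  have hM0 : (0 : ℝ) < M := by linarith
  have hlog : 8 / δ + 1 < Real.log M := by
    rw [Real.lt_log_iff_exp_lt hM0]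
    exact hMe
  have h8 : 0 < 8 / δ := by positivity
  set α : ℝ := 1 - 1 / (M : ℝ) with hα
  have hα0 : 0 < α := by
    have : 1 / (M : ℝ) < 1 := by
      rw [div_lt_one hM0]
      linarith
    linarith
  have hα1 : α < 1 := by
    have : 0 < 1 / (M : ℝ) := by positivity
    linarith
  set β : ℝ := (1 - 1 / (2 * (M : ℝ))) / α with hβ
  have hαβ : α * β = 1 - 1 / (2 * (M : ℝ)) := by
    rw [hβ]
    field_simp
  have hβ1 : 1 < β := by
    rw [hβ, one_lt_div hα0, hα]
    have : 1 / (2 * (M : ℝ)) < 1 / (M : ℝ) := by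
      apply one_div_lt_one_div_of_lt hM0
      linarith
    linarith
  -- bounds
  have hbd : ∀ u : ℂ, ‖u‖ ≤ 1 - 1 / (2 * (M : ℝ)) →
      -2 ≤ (hN (2 * M) u).re ∧ (hN (2 * M) u).re ≤ Real.log M + 2 ∧
        |(hN (2 * M) u).im| ≤ 5 := by
    intro u hu
    have h1 := hN_log M hM2 u hu
    have h2 := (Complex.abs_re_le_norm _).trans h1
    have h3 := (Complex.abs_im_le_norm _).trans h1
    rw [Complex.add_re, Complex.log_re] at h2
    rw [Complex.add_im, Complex.log_im] at h3
    have h4 : ‖1 - u‖ ≤ 2 := by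
      have := norm_sub_le (1 : ℂ) u
      rw [norm_one] at this
      have h5 : 0 < 1 / (2 * (M : ℝ)) := by positivity
      linarith
    have h5 : 1 / (2 * (M : ℝ)) ≤ ‖1 - u‖ := by
      have := norm_sub_norm_le (1 : ℂ) u
      rw [norm_one] at this
      linarith
    have h6 : 0 < 1 / (2 * (M : ℝ)) := by positivity
    have h7 : Real.log ‖1 - u‖ ≤ Real.log 2 := Real.log_le_log (by linarith) h4
    have h8' : Real.log (1 / (2 * (M : ℝ))) ≤ Real.log ‖1 - u‖ := Real.log_le_log h6 h5
    have h9 : Real.log (1 / (2 * (M : ℝ))) = - (Real.log 2 + Real.log M) := by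
      rw [one_div, Real.log_inv, Real.log_mul (by norm_num) hM0.ne']
    have h10 : Real.log 2 ≤ 1 := by
      have := Real.log_two_lt_d9
      linarith
    have h11 := Complex.abs_arg_le_pi (1 - u)
    have h12 := Real.pi_lt_four
    rw [abs_le] at h2 h3 h11
    refine ⟨by linarith, by linarith, ?_⟩
    rw [abs_le]
    constructor <;> linarith
  have hC0 : ((M : ℂ) ^ (2 * M) * (2 * M).factorial) ≠ 0 := by
    apply mul_ne_zero
    · apply pow_ne_zero
      exact_mod_cast (show M ≠ 0 by omega)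
    · exact_mod_cast (Nat.factorial_ne_zero _)
  -- the value at one
  have hα_le : α ≤ 1 - 1 / (2 * (M : ℝ)) := by
    have : α * 1 ≤ α * β := mul_le_mul_of_nonneg_left hβ1.le hα0.le
    rw [mul_one, hαβ] at this
    exact this
  obtain ⟨H, hH⟩ : ∃ H : ℝ, hN (2 * M) (α : ℂ) = (H : ℂ) := by
    refine ⟨∑ i ∈ range (2 * M + 1), α ^ i / i, ?_⟩
    unfold hN
    push_cast
    rfl
  have hH1 : |H - Real.log M| ≤ 1 := by
    have h1 := hN_log M hM2 (α : ℂ) (by
      rw [Complex.norm_real, Real.norm_of_nonneg hα0.le]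
      exact hα_le)
    rw [hH] at h1
    have h2 := (Complex.abs_re_le_norm _).trans h1
    rw [Complex.add_re, Complex.log_re, Complex.ofReal_re] at h2
    have h3 : (1 : ℂ) - (α : ℂ) = ((1 / (M : ℝ) : ℝ) : ℂ) := by
      rw [hα]
      push_cast
      ring
    rw [h3, Complex.norm_real, Real.norm_of_nonneg (by positivity), one_div,
      Real.log_inv] at h2
    rw [← sub_eq_add_neg] at h2
    exact h2
  rw [abs_le] at hH1
  have hHpos : 8 / δ < H := by linarith
  have hH0 : 0 < H := by linarith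
  have hsum : (((fL M).sum : ℕ) : ℂ) = ((M : ℂ) ^ (2 * M) * (2 * M).factorial) * H := by
    rw [sum_fL, evL_fL M hM2, mul_one, ← hα, hH]
  refine ⟨fL M, (fL M).sum, β, ?_, hβ1, ?_, rfl, ?_⟩
  · rcases Nat.eq_zero_or_pos (fL M).sum with h | h
    · exfalso
      rw [h, Nat.cast_zero] at hsum
      rcases mul_eq_zero.1 hsum.symm with h1 | h1
      · exact hC0 h1
      · exact hH0.ne' (by exact_mod_cast h1)
    · exact h
  · rw [fL_getD M 0 (by omega)]
    simp [ac]
  · intro w hw
    have hu : ‖(α : ℂ) * w‖ ≤ 1 - 1 / (2 * (M : ℝ)) := by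
      rw [norm_mul, Complex.norm_real, Real.norm_of_nonneg hα0.le, ← hαβ]
      exact mul_le_mul_of_nonneg_left hw hα0.le
    obtain ⟨h1, h2, h3⟩ := hbd _ hu
    set g := hN (2 * M) ((α : ℂ) * w) with hg
    have hev : evL (fL M) w / (((fL M).sum : ℕ) : ℂ) = g / H := by
      rw [hsum, evL_fL M hM2, ← hα, ← hg]
      rw [mul_div_mul_left _ _ hC0]
    refine ⟨max 0 (min 1 (g.re / H)), le_max_left _ _, max_le zero_le_one (min_le_left _ _), ?_⟩
    rw [hev]
    set t : ℝ := max 0 (min 1 (g.re / H)) with ht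
    have hre : (g / (H : ℂ) - (t : ℂ)).re = g.re / H - t := by
      rw [Complex.sub_re, Complex.div_ofReal_re, Complex.ofReal_re]
    have him : (g / (H : ℂ) - (t : ℂ)).im = g.im / H := by
      rw [Complex.sub_im, Complex.div_ofReal_im, Complex.ofReal_im, sub_zero]
    have h4 : |g.re / H - t| ≤ 3 / H := by
      have h5 : -(2 / H) ≤ g.re / H := by
        rw [← neg_div]
        exact div_le_div_of_nonneg_right h1 hH0.le
      have h6 : g.re / H ≤ 1 + 3 / H := by
        have : g.re / H ≤ (H + 3) / H := div_le_div_of_nonneg_right (by linarith) hH0.le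
        rw [add_div, div_self hH0.ne'] at this
        exact this
      have h7 : 0 < 3 / H := by positivity
      have h8' : 2 / H ≤ 3 / H := div_le_div_of_nonneg_right (by norm_num) hH0.le
      rw [ht, abs_le]
      constructor
      · rcases le_total (g.re / H) 0 with h9 | h9
        · rw [min_eq_right (h9.trans zero_le_one), max_eq_left h9]
          linarith
        · rcases le_total 1 (g.re / H) with h10 | h10
          · rw [min_eq_left h10, max_eq_right zero_le_one]
            linarith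
          · rw [min_eq_right h10, max_eq_right h9]
            linarith
      · rcases le_total (g.re / H) 0 with h9 | h9
        · rw [min_eq_right (h9.trans zero_le_one), max_eq_left h9]
          linarith
        · rcases le_total 1 (g.re / H) with h10 | h10
          · rw [min_eq_left h10, max_eq_right zero_le_one]
            linarith
          · rw [min_eq_right h10, max_eq_right h9]
            linarith
    have h5 : |g.im / H| ≤ 5 / H := by
      rw [abs_div, abs_of_pos hH0]
      exact div_le_div_of_nonneg_right h3 hH0.le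
    have h6 := Complex.norm_le_abs_re_add_abs_im (g / (H : ℂ) - (t : ℂ))
    rw [hre, him] at h6
    have h7 : 8 / H ≤ δ := by
      rw [div_le_iff₀ hH0]
      rw [div_lt_iff₀ hδ] at hHpos
      linarith
    have h8' : 3 / H + 5 / H = 8 / H := by
      rw [← add_div]
      norm_num
    linarith

end Pool.Agent.Helper75.BO
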