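import Pool.Agent.Helper92.BO.GoalsA

/-!
# Stable set polytopes: locality of the iterated integrals (LOC)
-/

namespace Pool.Agent.Helper75.BO

open Pool.Agent.Helper92.BO MeasureTheory

theorem cut_congr (G : SimpleGraph ℕ) (v : ℕ) (c : ℝ) {L : List ℕ} {b b' : ℕ → ℝ}
    (h : ∀ u ∈ L, b u = b' u) : ∀ u ∈ L, cut G v c b u = cut G v c b' u := by
  intro u hu
  unfold cut
  rw [h u hu]

theorem loc : LocStmt := by
  intro G s z l L
  induction L with
  | nil => intro b b' _; exact ⟨rfl, rfl, rfl⟩
  | cons v L ih =>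
    intro b b' h
    have hv : b v = b' v := h v List.mem_cons_self
    have hL : ∀ u ∈ L, b u = b' u := fun u hu => h u (List.mem_cons_of_mem v hu)
    have key : ∀ c : ℝ, ZC G z L (cut G v c b) = ZC G z L (cut G v c b') ∧
        ZR G l L (cut G v c b) = ZR G l L (cut G v c b') ∧
        KR G s l L (cut G v c b) = KR G s l L (cut G v c b') :=
      fun c => ih _ _ (cut_congr G v c hL)
    refine ⟨?_, ?_, ?_⟩
    · simp only [ZC, hv, (key _).1]
    · simp only [ZR, hv, (key _).2.1]
    · simp only [KR, hv, (key _).2.1, (key _).2.2]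

end Pool.Agent.Helper75.BO
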