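import Pool.Agent.Helper92.BO.GoalsC

/-!
# Stable set polytopes: the volume as an iterated integral (VLG)
-/

namespace Pool.Agent.Helper75.BO

open Pool.Agent.Helper92.BO MeasureTheory Set

/-- The polytope with open lower bounds. -/
def polyO (G : SimpleGraph ℕ) (n : ℕ) : Set (Fin n → ℝ) :=
  {x | (∀ i, 0 < x i ∧ x i ≤ 1) ∧ ∀ i j : Fin n, G.Adj i j → x i + x j ≤ 1}

theorem measurableSet_polyO (G : SimpleGraph ℕ) (n : ℕ) : MeasurableSet (polyO G n) := by
  have h1 : polyO G n = (⋂ i : Fin n, ({x : Fin n → ℝ | 0 < x i} ∩ {x | x i ≤ 1})) ∩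
      ⋂ i : Fin n, ⋂ j : Fin n, {x : Fin n → ℝ | G.Adj i j → x i + x j ≤ 1} := by
    ext x
    simp [polyO]
  rw [h1]
  refine (MeasurableSet.iInter fun i => ?_).inter
    (MeasurableSet.iInter fun i => MeasurableSet.iInter fun j => ?_)
  · exact (measurableSet_lt measurable_const (measurable_pi_apply i)).inter
      (measurableSet_le (measurable_pi_apply i) measurable_const)
  · by_cases h : G.Adj i j
    · have : {x : Fin n → ℝ | G.Adj i j → x i + x j ≤ 1} = {x | x i + x j ≤ 1} := by
        ext x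
        simp [h]
      rw [this]
      exact measurableSet_le ((measurable_pi_apply i).add (measurable_pi_apply j))
        measurable_const
    · have : {x : Fin n → ℝ | G.Adj i j → x i + x j ≤ 1} = Set.univ := by
        ext x
        simp [h]
      rw [this]
      exact MeasurableSet.univ

theorem volume_polyO (G : SimpleGraph ℕ) (n : ℕ) :
    volume (polyO G n) = volume (polyG G n) := by
  apply measure_congr
  have h1 : ∀ i : Fin n, ∀ᵐ x : Fin n → ℝ, x i ≠ 0 := by
    intro i
    rw [ae_iff]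
    have := Measure.pi_hyperplane (fun _ : Fin n => (volume : Measure ℝ)) i (0 : ℝ)
    simpa [volume_pi] using this
  filter_upwards [ae_all_iff.2 h1] with x hx
  apply propext
  show (x ∈ polyO G n) ↔ (x ∈ polyG G n)
  constructor
  · rintro ⟨h2, h3⟩
    exact ⟨fun i => ⟨(h2 i).1.le, (h2 i).2⟩, h3⟩
  · rintro ⟨h2, h3⟩
    exact ⟨fun i => ⟨lt_of_le_of_ne (h2 i).1 (Ne.symm (hx i)), (h2 i).2⟩, h3⟩

theorem psi_one (x : ℝ) : psi 1 x = 1 := by
  unfold psi
  split_ifs <;> rfl

theorem vlg_aux (hint : IntStmt) (G : SimpleGraph ℕ) (L : List ℕ)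
    (hL : ∀ i : Fin L.length, L.get i = (i : ℕ)) :
    ZC G 1 L (fun _ => 1) = (((volume (polyG G L.length)).toReal : ℝ) : ℂ) := by
  classical
  rw [hint G 1 L (fun _ => 1) (fun u _ => ⟨zero_le_one, le_rfl⟩), ← volume_polyO]
  have h1 : (fun x : Fin L.length → ℝ =>
      if (∀ i, 0 < x i ∧ x i ≤ 1) ∧
        (∀ i j, G.Adj (L.get i) (L.get j) → x i + x j ≤ 1) then ∏ i, psi 1 (x i) else 0) =
      (polyO G L.length).indicator (fun _ => (1 : ℂ)) := by
    funext x
    simp only [hL, psi_one, Finset.prod_const_one, Set.indicator, polyO, Set.mem_ofPred_eq]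
  have h2 := integral_indicator_const (μ := (volume : Measure (Fin L.length → ℝ))) (1 : ℂ)
    (measurableSet_polyO G L.length)
  rw [← h1] at h2
  refine Eq.trans ?_ (h2.trans ?_)
  · congr 1
  · simp [Measure.real]

/-- VLG. -/
theorem vlg (hint : IntStmt) : VlgStmt := by
  intro G n
  have h := vlg_aux hint G (List.range n) (fun i => by simp)
  rw [h]
  rw [List.length_range]

end Pool.Agent.Helper75.BO
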