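import Pool.Agent.Helper92.BO.GoalsD

/-!
# Stable set polytopes: walks cover connected sets (WAL)
-/

namespace Pool.Agent.Helper75.BO

open Pool.Agent.Helper92.BO Finset

theorem wal_aux (R : ℕ → ℕ → Prop) (S : Finset ℕ) (hr : ∀ u, R u u)
    (hs : ∀ u w, R u w → R w u) (hc : Cnx R S) : ∀ j : ℕ, j + 1 ≤ S.card → ∃ f : ℕ → ℕ,
    (∀ t, R (f t) (f (t + 1))) ∧ (∀ t, f t ∈ S) ∧
      j + 1 ≤ ((range (2 * j + 1)).image f).card := by
  intro j
  induction j with
  | zero =>
    intro _
    obtain ⟨v, hv⟩ := hc.1
    refine ⟨fun _ => v, fun _ => hr v, fun _ => hv, ?_⟩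
    simp
  | succ j ih =>
    intro hj
    obtain ⟨f, h1, h2, h3⟩ := ih (by omega)
    set T := (range (2 * j + 1)).image f with hT
    by_cases hTS : T = S
    · refine ⟨f, h1, h2, ?_⟩
      have h4 : T ⊆ (range (2 * (j + 1) + 1)).image f :=
        image_subset_image (range_subset_range.2 (by omega))
      have h5 := card_le_card h4
      rw [hTS] at h5
      omega
    · have hsub : T ⊆ S := by
        intro x hx
        obtain ⟨t, _, rfl⟩ := mem_image.1 hx
        exact h2 t
      have hne : T.Nonempty := ⟨f 0, mem_image.2 ⟨0, by simp, rfl⟩⟩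
      obtain ⟨u, hu, w, hw, hR⟩ := hc.2 T hsub hne hTS
      obtain ⟨t0, ht0, rfl⟩ := mem_image.1 hu
      rw [mem_range] at ht0
      obtain ⟨hwS, hwT⟩ := mem_sdiff.1 hw
      let g : ℕ → ℕ := fun t => if t ≤ t0 then f t else if t = t0 + 1 then w else f (t - 2)
      have g1 : ∀ t, t ≤ t0 → g t = f t := fun t ht => if_pos ht
      have g2 : g (t0 + 1) = w := by
        show (if t0 + 1 ≤ t0 then f (t0 + 1) else if t0 + 1 = t0 + 1 then w else f (t0 + 1 - 2)) = w
        rw [if_neg (by omega), if_pos rfl]
      have g3 : ∀ t, t0 ≤ t → g (t + 2) = f t := by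
        intro t ht
        show (if t + 2 ≤ t0 then f (t + 2) else if t + 2 = t0 + 1 then w else f (t + 2 - 2)) = f t
        rw [if_neg (by omega), if_neg (by omega)]
        rfl
      refine ⟨g, ?_, ?_, ?_⟩
      · intro t
        rcases lt_trichotomy t t0 with h | h | h
        · rw [g1 t h.le, g1 (t + 1) h]
          exact h1 t
        · rw [h, g1 t0 le_rfl, g2]
          exact hR
        · obtain ⟨s, rfl⟩ : ∃ s, t = t0 + 1 + s := ⟨t - (t0 + 1), by omega⟩
          rcases Nat.eq_zero_or_pos s with rfl | hs0
          · rw [add_zero, g2, g3 t0 le_rfl]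
            exact hs _ _ hR
          · obtain ⟨r, rfl⟩ : ∃ r, s = r + 1 := ⟨s - 1, by omega⟩
            have e1 : t0 + 1 + (r + 1) = (t0 + r) + 2 := by ring
            have e2 : t0 + 1 + (r + 1) + 1 = (t0 + r + 1) + 2 := by ring
            rw [e2, e1, g3 _ (by omega), g3 _ (by omega)]
            exact h1 _
      · intro t
        show (if t ≤ t0 then f t else if t = t0 + 1 then w else f (t - 2)) ∈ S
        split_ifs
        · exact h2 t
        · exact hwS
        · exact h2 _
      · have h4 : insert w T ⊆ (range (2 * (j + 1) + 1)).image g := by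
          intro x hx
          rw [mem_insert] at hx
          rcases hx with rfl | hx
          · exact mem_image.2 ⟨t0 + 1, mem_range.2 (by omega), g2⟩
          · obtain ⟨t, ht, rfl⟩ := mem_image.1 hx
            rw [mem_range] at ht
            rcases le_total t t0 with h | h
            · exact mem_image.2 ⟨t, mem_range.2 (by omega), g1 t h⟩
            · exact mem_image.2 ⟨t + 2, mem_range.2 (by omega), g3 t h⟩
        have h5 := card_le_card h4
        rw [card_insert_of_notMem hwT] at h5
        omega

/-- WAL. -/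
theorem wal : WalStmt := by
  intro R S m hr hs hc hm
  have hcard : 0 < S.card := card_pos.2 hc.1
  obtain ⟨f, h1, h2, h3⟩ := wal_aux R S hr hs hc (S.card - 1) (by omega)
  refine ⟨f, fun t _ => h1 t, ?_⟩
  have h4 : (range (2 * (S.card - 1) + 1)).image f ⊆ S := by
    intro x hx
    obtain ⟨t, _, rfl⟩ := mem_image.1 hx
    exact h2 t
  have h5 : (range (2 * (S.card - 1) + 1)).image f = S :=
    eq_of_subset_of_card_le h4 (by omega)
  apply subset_antisymm
  · intro x hx
    obtain ⟨t, _, rfl⟩ := mem_image.1 hx
    exact h2 t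
  · intro x hx
    rw [← h5] at hx
    exact image_subset_image (range_subset_range.2 (by omega)) hx

end Pool.Agent.Helper75.BO
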