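import Pool.Agent.Helper92.BO.GoalsE

/-!
# Stable set polytopes: the walks of the algorithm (WKV)
-/

namespace Pool.Agent.Helper75.BO

open Pool.Agent.Helper92.BO

/-! ### Removing duplicates -/

theorem dedup_aux (l : List (List ℕ)) : ∀ acc : List (List ℕ), acc.Nodup →
    (l.foldl (fun acc S => if acc.contains S then acc else acc ++ [S]) acc).Nodup ∧
    ∀ x, x ∈ l.foldl (fun acc S => if acc.contains S then acc else acc ++ [S]) acc ↔
      x ∈ acc ∨ x ∈ l := by
  induction l with
  | nil => intro acc h; exact ⟨h, fun x => by simp⟩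
  | cons a l ih =>
    intro acc h
    rw [List.foldl_cons]
    by_cases ha : a ∈ acc
    · have h1 : (if acc.contains a then acc else acc ++ [a]) = acc := by
        rw [if_pos]
        simpa using ha
      rw [h1]
      obtain ⟨h2, h3⟩ := ih acc h
      refine ⟨h2, fun x => ?_⟩
      rw [h3, List.mem_cons]
      constructor
      · rintro (h4 | h4)
        · exact Or.inl h4
        · exact Or.inr (Or.inr h4)
      · rintro (h4 | rfl | h4)
        · exact Or.inl h4
        · exact Or.inl ha
        · exact Or.inr h4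
    · have h1 : (if acc.contains a then acc else acc ++ [a]) = acc ++ [a] := by
        rw [if_neg]
        simpa using ha
      rw [h1]
      have hnd : (acc ++ [a]).Nodup := by
        rw [List.nodup_append]
        refine ⟨h, List.nodup_singleton a, ?_⟩
        intro x hx y hy
        rw [List.mem_singleton] at hy
        rw [hy]
        rintro rfl
        exact ha hx
      obtain ⟨h2, h3⟩ := ih _ hnd
      refine ⟨h2, fun x => ?_⟩
      rw [h3, List.mem_append, List.mem_singleton, List.mem_cons, or_assoc]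

theorem mem_dedupL (l : List (List ℕ)) (x : List ℕ) : x ∈ dedupL l ↔ x ∈ l := by
  have := (dedup_aux l [] List.nodup_nil).2 x
  simpa [dedupL] using this

theorem nodup_dedupL (l : List (List ℕ)) : (dedupL l).Nodup :=
  (dedup_aux l [] List.nodup_nil).1

/-! ### Canonical lists -/

theorem mem_canon (n : ℕ) (vs : List ℕ) (u : ℕ) : u ∈ canon n vs ↔ u < n ∧ u ∈ vs := by
  simp [canon]

theorem nodup_canon (n : ℕ) (vs : List ℕ) : (canon n vs).Nodup :=
  List.nodup_range.filter _

theorem canon_inj (n : ℕ) (vs ws : List ℕ)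
    (h : (canon n vs).toFinset = (canon n ws).toFinset) : canon n vs = canon n ws := by
  unfold canon
  apply List.filter_congr
  intro u hu
  rw [List.mem_range] at hu
  have h1 : u ∈ (canon n vs).toFinset ↔ u ∈ (canon n ws).toFinset := by rw [h]
  rw [List.mem_toFinset, List.mem_toFinset, mem_canon, mem_canon] at h1
  have h2 : u ∈ vs ↔ u ∈ ws := by
    constructor
    · intro h3
      exact (h1.1 ⟨hu, h3⟩).2
    · intro h3
      exact (h1.2 ⟨hu, h3⟩).2
  rw [Bool.eq_iff_iff]
  simpa using h2

/-! ### The code of a walk -/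

theorem exists_code (B : ℕ) : ∀ (T : ℕ) (d : ℕ → ℕ), (∀ t < T, d t < B) →
    ∃ e < B ^ T, ∀ t < T, e / B ^ t % B = d t := by
  intro T
  induction T with
  | zero => intro d _; exact ⟨0, by simp, fun t ht => absurd ht (Nat.not_lt_zero _)⟩
  | succ T ih =>
    intro d hd
    obtain ⟨e, he, h⟩ := ih (fun t => d (t + 1)) (fun t ht => hd (t + 1) (by omega))
    have hd0 : d 0 < B := hd 0 (by omega)
    have hB : 0 < B := by omega
    refine ⟨d 0 + B * e, ?_, ?_⟩
    · have h1 : B * (e + 1) ≤ B * B ^ T := Nat.mul_le_mul_left B he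
      rw [pow_succ, Nat.mul_comm (B ^ T) B]
      rw [Nat.mul_add, Nat.mul_one] at h1
      omega
    · intro t ht
      rcases Nat.eq_zero_or_pos t with rfl | ht0
      · rw [pow_zero, Nat.div_one, Nat.add_mul_mod_self_left, Nat.mod_eq_of_lt hd0]
      · obtain ⟨s, rfl⟩ : ∃ s, t = s + 1 := ⟨t - 1, by omega⟩
        rw [pow_succ, Nat.mul_comm (B ^ s) B, ← Nat.div_div_eq_div_mul,
          Nat.add_mul_div_left _ _ hB, Nat.div_eq_of_lt hd0, Nat.zero_add]
        exact h s (by omega)

theorem wlk_aux (E : List (ℕ × ℕ)) (n B : ℕ) (f d : ℕ → ℕ) (e : ℕ) : ∀ T : ℕ,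
    (∀ t < T, (nbR E n (f t)).getD (d t) (f t) = f (t + 1)) →
    (∀ t < T, e / B ^ t % B = d t) →
    ((List.range T).foldl (fun st _ => wstep E n B st) (e, [f 0])).1 = e / B ^ T ∧
    ((List.range T).foldl (fun st _ => wstep E n B st) (e, [f 0])).2.headD 0 = f T ∧
    ∀ x, x ∈ ((List.range T).foldl (fun st _ => wstep E n B st) (e, [f 0])).2 ↔
      ∃ t ≤ T, f t = x := by
  intro T
  induction T with
  | zero =>
    intro _ _
    refine ⟨by simp, by simp, fun x => ?_⟩
    simp [eq_comm]
  | succ T ih =>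
    intro h1 h2
    obtain ⟨i1, i2, i3⟩ := ih (fun t ht => h1 t (by omega)) (fun t ht => h2 t (by omega))
    rw [List.range_succ, List.foldl_append, List.foldl_cons, List.foldl_nil]
    set st := (List.range T).foldl (fun st _ => wstep E n B st) (e, [f 0]) with hst
    have h3 : (wstep E n B st).2 = f (T + 1) :: st.2 := by
      unfold wstep
      simp only
      rw [i1, i2, h2 T (by omega), h1 T (by omega)]
    refine ⟨?_, ?_, ?_⟩
    · show st.1 / B = e / B ^ (T + 1)
      rw [i1, Nat.div_div_eq_div_mul, pow_succ]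
    · rw [h3]
      rfl
    · intro x
      rw [h3, List.mem_cons, i3]
      constructor
      · rintro (rfl | ⟨t, ht, rfl⟩)
        · exact ⟨T + 1, le_rfl, rfl⟩
        · exact ⟨t, by omega, rfl⟩
      · rintro ⟨t, ht, rfl⟩
        rcases Nat.lt_or_ge T t with h4 | h4
        · left
          congr 1
          omega
        · right
          exact ⟨t, h4, rfl⟩

theorem mem_nbR (E : List (ℕ × ℕ)) (n u w : ℕ) : w ∈ nbR E n u ↔ w < n ∧ relB E n u w = true := by
  simp [nbR]

theorem relB_symm (E : List (ℕ × ℕ)) (n u w : ℕ) (h : relB E n u w = true) :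
    relB E n w u = true := by
  unfold relB at h ⊢
  rw [List.any_eq_true] at h ⊢
  obtain ⟨x, hx, h1⟩ := h
  refine ⟨x, hx, ?_⟩
  rw [Bool.and_eq_true] at h1 ⊢
  exact ⟨h1.2, h1.1⟩

theorem relB_self (E : List (ℕ × ℕ)) (n u : ℕ) (h : u < n) : relB E n u u = true := by
  unfold relB
  rw [List.any_eq_true]
  exact ⟨u, List.mem_range.2 h, by simp⟩

/-- WKV. -/
theorem wkv (hwal : WalStmt) : WkvStmt := by
  intro E n B m N hB hdeg hN
  have hmem : ∀ S, S ∈ setsL E n B m N ↔ (∃ v < n, ∃ e < N,
      canon n (wlk E n B (2 * m) e v) = S) ∧ S.length ≤ m := by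
    intro S
    unfold setsL
    rw [mem_dedupL, List.mem_filter, List.mem_flatMap]
    simp only [List.mem_range, List.mem_map, decide_eq_true_eq]
  refine ⟨?_, ?_, ?_⟩
  · intro S hS
    obtain ⟨⟨v, _, e, _, rfl⟩, h1⟩ := (hmem S).1 hS
    exact ⟨nodup_canon _ _, fun i hi => ((mem_canon _ _ _).1 hi).1, h1⟩
  · apply List.Nodup.map_on
    · intro S hS S' hS' h
      obtain ⟨⟨v, _, e, _, rfl⟩, _⟩ := (hmem S).1 hS
      obtain ⟨⟨v', _, e', _, rfl⟩, _⟩ := (hmem S').1 hS'
      exact canon_inj n _ _ h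
    · exact nodup_dedupL _
  · intro S hSn hcard hc
    have hc' : Cnx (fun u w => relB E n u w = true ∨ u = w) S := by
      refine ⟨hc.1, fun S1 h1 h2 h3 => ?_⟩
      obtain ⟨u, hu, w, hw, h4⟩ := hc.2 S1 h1 h2 h3
      exact ⟨u, hu, w, hw, Or.inl h4⟩
    obtain ⟨f, hf1, hf2⟩ := hwal (fun u w => relB E n u w = true ∨ u = w) S m
      (fun u => Or.inr rfl)
      (fun u w h => h.elim (fun h => Or.inl (relB_symm E n u w h)) (fun h => Or.inr h.symm))
      hc' hcard
    have hfS : ∀ t ≤ 2 * m, f t ∈ S := by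
      intro t ht
      rw [← hf2]
      exact Finset.mem_image.2 ⟨t, Finset.mem_range.2 (by omega), rfl⟩
    have hfn : ∀ t ≤ 2 * m, f t < n := fun t ht => Finset.mem_range.1 (hSn (hfS t ht))
    have hnb : ∀ t < 2 * m, f (t + 1) ∈ nbR E n (f t) := by
      intro t ht
      rw [mem_nbR]
      refine ⟨hfn (t + 1) (by omega), ?_⟩
      rcases hf1 t ht with h | h
      · exact h
      · rw [← h]
        exact relB_self E n _ (hfn t (by omega))
    have hidx : ∀ t < 2 * m, (nbR E n (f t)).idxOf (f (t + 1)) < (nbR E n (f t)).length :=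
      fun t ht => List.idxOf_lt_length_of_mem (hnb t ht)
    obtain ⟨e, he, hcode⟩ := exists_code B (2 * m)
      (fun t => (nbR E n (f t)).idxOf (f (t + 1)))
      (fun t ht => (hidx t ht).trans_le (hdeg (f t) (hfn t (by omega))))
    have hget : ∀ t < 2 * m, (nbR E n (f t)).getD ((nbR E n (f t)).idxOf (f (t + 1))) (f t) =
        f (t + 1) := by
      intro t ht
      rw [List.getD_eq_getElem _ _ (hidx t ht)]
      exact List.getElem_idxOf (hidx t ht)
    obtain ⟨-, -, h3⟩ := wlk_aux E n B f (fun t => (nbR E n (f t)).idxOf (f (t + 1))) e (2 * m)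
      hget hcode
    have hfin : (canon n (wlk E n B (2 * m) e (f 0))).toFinset = S := by
      ext x
      rw [List.mem_toFinset, mem_canon]
      constructor
      · rintro ⟨_, h4⟩
        obtain ⟨t, ht, rfl⟩ := (h3 x).1 h4
        exact hfS t ht
      · intro hx
        refine ⟨Finset.mem_range.1 (hSn hx), (h3 x).2 ?_⟩
        rw [← hf2] at hx
        obtain ⟨t, ht, rfl⟩ := Finset.mem_image.1 hx
        exact ⟨t, by have := Finset.mem_range.1 ht; omega, rfl⟩
    refine ⟨canon n (wlk E n B (2 * m) e (f 0)), (hmem _).2 ⟨⟨f 0, hfn 0 (by omega), e,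
      he.trans_le hN, rfl⟩, ?_⟩, hfin⟩
    have h5 := List.toFinset_card_of_nodup (nodup_canon n (wlk E n B (2 * m) e (f 0)))
    rw [hfin] at h5
    omega

end Pool.Agent.Helper75.BO
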